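import Pool.Agent.Y223.G.Stm

set_option autoImplicit false

/-!
# Project G: weighted quasi-regularity of a part of a regular system of parameters

Monomial ideals in the elements of such a system behave as in a polynomial ring: the quotient of a
monomial ideal by a variable is the expected monomial ideal.
-/

namespace Pool.Agent.Y484.G

open IsLocalRing Pool.Agent.W418.LU2

section Mono

variable {A : Type} [CommRing A] {ι : Type} [Fintype ι] [DecidableEq ι] (x : ι → A)

/-- monomials -/
def mo (m : ι → ℕ) : A := ∏ i, x i ^ m i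

/-- monomial ideals -/
def In (N : Set (ι → ℕ)) : Ideal A := Ideal.span (mo x '' N)

/-- truncated division of a monomial by a variable -/
def dv (j : ι) (m : ι → ℕ) : ι → ℕ := fun l => if l = j then m l - 1 else m l

omit [Fintype ι] in
theorem dv_same (j : ι) (m : ι → ℕ) : dv j m j = m j - 1 := if_pos rfl

omit [Fintype ι] in
theorem dv_ne {j l : ι} (h : l ≠ j) (m : ι → ℕ) : dv j m l = m l := if_neg h

/-- truncated division of the monomials by a variable -/
def sj (j : ι) (N : Set (ι → ℕ)) : Set (ι → ℕ) := dv j '' N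

omit [DecidableEq ι] in
theorem mo_zero : mo x 0 = 1 := by
  simp [mo]

theorem mo_succ (j : ι) (m : ι → ℕ) (h : 1 ≤ m j) : mo x m = x j * mo x (dv j m) := by
  unfold mo
  rw [← Finset.mul_prod_erase Finset.univ (fun i => x i ^ m i) (Finset.mem_univ j),
    ← Finset.mul_prod_erase Finset.univ (fun i => x i ^ dv j m i) (Finset.mem_univ j)]
  have h1 : ∀ i ∈ Finset.univ.erase j, x i ^ dv j m i = x i ^ m i := by
    intro i hi
    rw [dv_ne (Finset.ne_of_mem_erase hi)]
  rw [Finset.prod_congr rfl h1, ← mul_assoc, ← pow_succ', dv_same, Nat.sub_add_cancel h]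

omit [DecidableEq ι] in
theorem In_mono {N N' : Set (ι → ℕ)} (h : N ⊆ N') : In x N ≤ In x N' :=
  Ideal.span_mono (Set.image_mono h)

omit [Fintype ι] in
theorem sub_single_of_zero {j : ι} {n : ι → ℕ} (h : n j = 0) : dv j n = n := by
  funext l
  by_cases hl : l = j
  · subst hl
    rw [dv_same, h]
  · rw [dv_ne hl]

omit [Fintype ι] in
theorem sub_sj (j : ι) (N : Set (ι → ℕ)) : {n ∈ N | n j = 0} ⊆ sj j N := by
  rintro n ⟨hn, h0⟩
  exact ⟨n, hn, sub_single_of_zero h0⟩

/-- modulo the variable -/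
theorem split1 (j : ι) (N : Set (ι → ℕ)) :
    In x N ≤ In x {n ∈ N | n j = 0} ⊔ Ideal.span {x j} := by
  unfold In
  rw [Ideal.span_le]
  rintro _ ⟨n, hn, rfl⟩
  rcases Nat.eq_zero_or_pos (n j) with h | h
  · exact Submodule.mem_sup_left (Ideal.subset_span ⟨n, ⟨hn, h⟩, rfl⟩)
  · apply Submodule.mem_sup_right
    rw [mo_succ x j n h]
    exact Ideal.mul_mem_right _ _ (Ideal.mem_span_singleton_self _)

theorem split2 (j : ι) (N : Set (ι → ℕ)) :
    In x N ≤ In x {n ∈ N | n j = 0} ⊔ Ideal.span {x j} * In x (sj j N) := by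
  unfold In
  rw [Ideal.span_le]
  rintro _ ⟨n, hn, rfl⟩
  rcases Nat.eq_zero_or_pos (n j) with h | h
  · exact Submodule.mem_sup_left (Ideal.subset_span ⟨n, ⟨hn, h⟩, rfl⟩)
  · apply Submodule.mem_sup_right
    rw [mo_succ x j n h]
    exact Ideal.mul_mem_mul (Ideal.mem_span_singleton_self _)
      (Ideal.subset_span ⟨_, ⟨n, hn, rfl⟩, rfl⟩)

theorem mul_sj (j : ι) (N : Set (ι → ℕ)) {b : A} (hb : b ∈ In x (sj j N)) :
    x j * b ∈ In x N := by
  unfold In at hb
  induction hb using Submodule.span_induction with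
  | mem y hy =>
    obtain ⟨_, ⟨n, hn, rfl⟩, rfl⟩ := hy
    rcases Nat.eq_zero_or_pos (n j) with h | h
    · rw [sub_single_of_zero h]
      exact Ideal.mul_mem_left _ _ (Ideal.subset_span ⟨n, hn, rfl⟩)
    · rw [← mo_succ x j n h]
      exact Ideal.subset_span ⟨n, hn, rfl⟩
  | zero =>
    rw [mul_zero]
    exact Ideal.zero_mem _
  | add y z _ _ hy hz =>
    rw [mul_add]
    exact Ideal.add_mem _ hy hz
  | smul a y _ hy =>
    rw [smul_eq_mul, mul_left_comm]
    exact Ideal.mul_mem_left _ _ hy

/-- the quotient by a variable which does not divide zero modulo the part without it -/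
theorem canc (j : ι) (J : Ideal A) (N : Set (ι → ℕ))
    (h0 : ∀ f, x j * f ∈ In x {n ∈ N | n j = 0} ⊔ J → f ∈ In x {n ∈ N | n j = 0} ⊔ J) (h : A)
    (hh : x j * h ∈ In x N ⊔ J) : h ∈ In x (sj j N) ⊔ J := by
  obtain ⟨a, ha, u, hu, e⟩ := Submodule.mem_sup.1 hh
  obtain ⟨a0, ha0, b', hb', e2⟩ := Submodule.mem_sup.1 (split2 x j N ha)
  obtain ⟨b, hb, rfl⟩ := Ideal.mem_span_singleton_mul.1 hb'
  have h1 : x j * (h - b) ∈ In x {n ∈ N | n j = 0} ⊔ J := by
    have h2 : x j * (h - b) = a0 + u := by
      rw [mul_sub, ← e, ← e2]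
      ring
    rw [h2]
    exact Submodule.add_mem_sup ha0 hu
  have h2 : In x {n ∈ N | n j = 0} ⊔ J ≤ In x (sj j N) ⊔ J :=
    sup_le_sup_right (In_mono x (sub_sj j N)) _
  have h3 : h = (h - b) + b := by ring
  rw [h3]
  exact Ideal.add_mem _ (h2 (h0 _ h1)) (Submodule.mem_sup_left hb)

/-- a variable does not divide zero modulo monomial ideals in the other variables -/
theorem key (hP : ∀ (U : Finset ι) (i : ι), i ∉ U → ∀ f, x i * f ∈ Ideal.span (x '' U) →
    f ∈ Ideal.span (x '' U)) (T : Finset ι) : ∀ (U : Finset ι) (i : ι), Disjoint T U → i ∉ T →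
    i ∉ U → ∀ N : Set (ι → ℕ), N.Finite → (∀ n ∈ N, ∀ l, l ∉ T → n l = 0) →
    ∀ f, x i * f ∈ In x N ⊔ Ideal.span (x '' U) → f ∈ In x N ⊔ Ideal.span (x '' U) := by
  induction T using Finset.induction_on with
  | empty =>
    intro U i _ _ hiU N _ hN f hf
    by_cases h0 : (0 : ι → ℕ) ∈ N
    · have h1 : In x N = ⊤ := by
        rw [Ideal.eq_top_iff_one, ← mo_zero x]
        exact Ideal.subset_span ⟨0, h0, rfl⟩
      rw [h1, top_sup_eq]
      exact Submodule.mem_top
    · have h1 : N = ∅ := by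
        rw [Set.eq_empty_iff_forall_notMem]
        intro n hn
        apply h0
        have h2 : n = 0 := funext fun l => hN n hn l (Finset.notMem_empty l)
        rwa [h2] at hn
      rw [h1] at hf ⊢
      unfold In at hf ⊢
      rw [Set.image_empty, Ideal.span_empty, bot_sup_eq] at hf ⊢
      exact hP U i hiU f hf
  | insert j T' hj ih =>
    intro U i hTU hiT hiU N hNf hN
    rw [Finset.disjoint_insert_left] at hTU
    rw [Finset.mem_insert, not_or] at hiT
    obtain ⟨D, hD⟩ : ∃ D, ∀ n ∈ N, n j ≤ D := by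
      obtain ⟨D, hD⟩ := (hNf.image fun n => n j).bddAbove
      exact ⟨D, fun n hn => hD ⟨n, hn, rfl⟩⟩
    induction D generalizing N with
    | zero =>
      refine ih U i hTU.2 hiT.2 hiU N hNf fun n hn l hl => ?_
      by_cases hlj : l = j
      · subst hlj
        exact Nat.le_zero.1 (hD n hn)
      · exact hN n hn l (by rw [Finset.mem_insert, not_or]; exact ⟨hlj, hl⟩)
    | succ D ihD =>
      intro f hf
      have hN0f : {n ∈ N | n j = 0}.Finite := hNf.subset fun n hn => hn.1
      have hN0 : ∀ n ∈ {n ∈ N | n j = 0}, ∀ l, l ∉ T' → n l = 0 := by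
        rintro n ⟨hn, h0⟩ l hl
        by_cases hlj : l = j
        · subst hlj
          exact h0
        · exact hN n hn l (by rw [Finset.mem_insert, not_or]; exact ⟨hlj, hl⟩)
      -- modulo the variable `x j`
      have hins : Ideal.span (x '' ((insert j U : Finset ι) : Set ι)) =
          Ideal.span {x j} ⊔ Ideal.span (x '' U) := by
        rw [Finset.coe_insert, Set.image_insert_eq, Ideal.span_insert]
      have h1 : f ∈ In x {n ∈ N | n j = 0} ⊔ Ideal.span (x '' ((insert j U : Finset ι) : Set ι)) := by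
        refine ih (insert j U) i ?_ hiT.2 ?_ _ hN0f hN0 f ?_
        · rw [Finset.disjoint_insert_right]
          exact ⟨hj, hTU.2⟩
        · rw [Finset.mem_insert, not_or]
          exact ⟨hiT.1, hiU⟩
        · rw [hins, ← sup_assoc]
          exact sup_le_sup_right (split1 x j N) _ hf
      rw [hins, ← sup_assoc] at h1
      obtain ⟨f', hf', u, hu, e1⟩ := Submodule.mem_sup.1 h1
      obtain ⟨f0, hf0, g', hg', e2⟩ := Submodule.mem_sup.1 hf'
      obtain ⟨f1, rfl⟩ := Ideal.mem_span_singleton.1 hg'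
      have hf0' : f0 ∈ In x N := In_mono x (fun n hn => hn.1) hf0
      have h2 : x j * (x i * f1) ∈ In x N ⊔ Ideal.span (x '' U) := by
        have h3 : x j * (x i * f1) = x i * f - (x i * f0 + x i * u) := by
          rw [← e1, ← e2]
          ring
        rw [h3]
        exact Ideal.sub_mem _ hf (Submodule.add_mem_sup (Ideal.mul_mem_left _ _ hf0')
          (Ideal.mul_mem_left _ _ hu))
      have h3 : x i * f1 ∈ In x (sj j N) ⊔ Ideal.span (x '' U) :=
        canc x j _ N (ih U j hTU.2 hj hTU.1 _ hN0f hN0) _ h2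
      have h4 : f1 ∈ In x (sj j N) ⊔ Ideal.span (x '' U) := by
        refine ihD (sj j N) (hNf.image _) ?_ ?_ f1 h3
        · rintro _ ⟨n, hn, rfl⟩ l hl
          have h6 := hN n hn l hl
          by_cases hlj : l = j
          · subst hlj
            rw [dv_same, h6]
          · rw [dv_ne hlj, h6]
        · rintro _ ⟨n, hn, rfl⟩
          rw [dv_same]
          have := hD n hn
          omega
      obtain ⟨b, hb, w, hw, e3⟩ := Submodule.mem_sup.1 h4
      have h5 : f = (f0 + x j * b) + (x j * w + u) := by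
        rw [← e1, ← e2, ← e3]
        ring
      rw [h5]
      exact Submodule.add_mem_sup (Ideal.add_mem _ hf0' (mul_sj x j N hb))
        (Ideal.add_mem _ (Ideal.mul_mem_left _ _ hw) hu)

/-- the quotient of a monomial ideal by a monomial -/
theorem colon (hP : ∀ (U : Finset ι) (i : ι), i ∉ U → ∀ f, x i * f ∈ Ideal.span (x '' U) →
    f ∈ Ideal.span (x '' U)) (k : ℕ) : ∀ m : ι → ℕ, ∑ i, m i = k → ∀ N : Set (ι → ℕ), N.Finite →
    (∀ n ∈ N, ¬ n ≤ m) → ∀ f, mo x m * f ∈ In x N → f ∈ Ideal.span (Set.range x) := by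
  induction k with
  | zero =>
    intro m hm N _ hN f hf
    have hm0 : m = 0 := by
      funext i
      exact (Finset.sum_eq_zero_iff.1 hm) i (Finset.mem_univ i)
    subst hm0
    rw [mo_zero, one_mul] at hf
    refine (Ideal.span_le.2 ?_ : In x N ≤ Ideal.span (Set.range x)) hf
    rintro _ ⟨n, hn, rfl⟩
    have h1 : ∃ j, 1 ≤ n j := by
      by_contra hcon
      apply hN n hn
      intro j
      by_contra h2
      exact hcon ⟨j, by
        have h3 : ¬ n j ≤ 0 := h2
        omega⟩
    obtain ⟨j, hj⟩ := h1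
    rw [mo_succ x j n hj]
    exact Ideal.mul_mem_right _ _ (Ideal.subset_span ⟨j, rfl⟩)
  | succ k ih =>
    intro m hm N hNf hN f hf
    obtain ⟨i, hi⟩ : ∃ i, 1 ≤ m i := by
      by_contra hcon
      have h1 : ∑ i, m i = 0 := Finset.sum_eq_zero fun i _ => by
        by_contra h2
        exact hcon ⟨i, Nat.one_le_iff_ne_zero.2 h2⟩
      omega
    rw [mo_succ x i m hi, mul_assoc] at hf
    have h1 := canc x i (Ideal.span (x '' ((∅ : Finset ι) : Set ι))) N
      (key x hP (Finset.univ.erase i) ∅ i (Finset.disjoint_empty_right _)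
        (Finset.notMem_erase _ _) (Finset.notMem_empty _) _ (hNf.subset fun n hn => hn.1) (by
          rintro n ⟨_, h0⟩ l hl
          have : l = i := by
            by_contra hne
            exact hl (Finset.mem_erase.2 ⟨hne, Finset.mem_univ _⟩)
          rw [this]
          exact h0)) _ (Submodule.mem_sup_left hf)
    rw [Finset.coe_empty, Set.image_empty, Ideal.span_empty, sup_bot_eq] at h1
    refine ih (dv i m) ?_ (sj i N) (hNf.image _) ?_ f h1
    · have h2 : ∑ l, dv i m l + 1 = ∑ l, m l := by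
        rw [← Finset.add_sum_erase Finset.univ m (Finset.mem_univ i),
          ← Finset.add_sum_erase Finset.univ (dv i m) (Finset.mem_univ i)]
        have h3 : ∑ l ∈ Finset.univ.erase i, dv i m l =
            ∑ l ∈ Finset.univ.erase i, m l := Finset.sum_congr rfl fun l hl => by
          rw [dv_ne (Finset.ne_of_mem_erase hl)]
        rw [h3, dv_same]
        omega
      omega
    · rintro _ ⟨n, hn, rfl⟩ hle
      apply hN n hn
      intro l
      have h2 : dv i n l ≤ dv i m l := hle l
      change n l ≤ m l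
      by_cases hl : l = i
      · subst hl
        rw [dv_same, dv_same] at h2
        omega
      · rw [dv_ne hl, dv_ne hl] at h2
        exact h2

end Mono

/-- parts of a system of parameters generate prime ideals -/
theorem prm {A : Type} [CommRing A] [IsRegularLocalRing A] {ι : Type} [Fintype ι] {x : ι → A}
    (hx : Ind x) (U : Finset ι) (i : ι) (hi : i ∉ U) (f : A) (h : x i * f ∈ Ideal.span (x '' U)) :
    f ∈ Ideal.span (x '' U) := by
  classical
  have h1 : Ind (x ∘ fun u : U => (u : ι)) := hx.comp _ Subtype.val_injective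
  have h2 := h1.regular
  have e : Set.range (x ∘ fun u : U => (u : ι)) = x '' U := by
    rw [Set.range_comp]
    congr 1
    exact Subtype.range_coe_subtype
  rw [e] at h2
  have hd := Pool.Agent.H379R3.isDomain (A ⧸ Ideal.span (x '' U))
  have hp : (Ideal.span (x '' (U : Set ι))).IsPrime := (Ideal.Quotient.isDomain_iff_prime _).1 hd
  rcases hp.mem_or_mem h with h3 | h3
  · exfalso
    rw [← e, Ideal.mem_span_range_iff_exists_fun] at h3
    obtain ⟨c, hc⟩ := h3
    have h4 : Ind (x ∘ (Sum.elim (fun _ : Unit => i) (fun u : U => (u : ι)))) := by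
      refine hx.comp _ ?_
      rintro (a | a) (b | b) hab
      · rfl
      · exact absurd (by rw [show i = (b : ι) from hab]; exact b.2) hi
      · exact absurd (by rw [← show (a : ι) = i from hab]; exact a.2) hi
      · exact congrArg Sum.inr (Subtype.ext hab)
    have h5 := h4.2 (Sum.elim (fun _ => 1) fun u => - c u) (by
      rw [Fintype.sum_sum_type]
      simp only [Sum.elim_inl, Sum.elim_inr, Function.comp_apply, one_mul, neg_mul,
        Finset.sum_neg_distrib, Fintype.sum_unique]
      have h6 : ∑ u, c u * x (u : ι) = x i := hc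
      rw [h6, add_neg_cancel]
      exact Ideal.zero_mem _) (Sum.inl ())
    exact (Ideal.ne_top_iff_one _).1 (maximalIdeal.isMaximal A).ne_top h5
  · exact h3

theorem t_WQR : Pool.Agent.Y223.G.S_WQR := by
  classical
  intro A _ _ c x hx a ha d s f hs hsum m₀ hm₀
  have hP := prm hx
  -- finitely many monomials of degree at least `d + 1`
  obtain ⟨N₁, hN₁f, hN₁, hmem⟩ : ∃ N₁ : Set (Fin c → ℕ), N₁.Finite ∧
      (∀ n ∈ N₁, d + 1 ≤ ∑ i, a i * n i) ∧ ∑ m ∈ s, f m * ∏ i, x i ^ m i ∈ In x N₁ := by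
    obtain ⟨T, hT, hT2⟩ := Submodule.mem_span_finite_of_mem_span hsum
    choose! g hg using fun y (hy : y ∈ T) => hT hy
    refine ⟨(fun y => (g y : Fin c → ℕ)) '' (T : Set A), T.finite_toSet.image _, ?_, ?_⟩
    · rintro _ ⟨y, hy, rfl⟩
      exact (hg y hy).1
    · refine (Submodule.span_mono ?_ :
        Submodule.span A (T : Set A) ≤ Submodule.span A _) hT2
      intro y hy
      exact ⟨_, ⟨y, hy, rfl⟩, (hg y hy).2.symm⟩
  refine colon x hP _ (m₀ : Fin c → ℕ) rfl
    (N₁ ∪ (fun m : Fin c →₀ ℕ => (m : Fin c → ℕ)) '' ((s.erase m₀ : Finset _) : Set _))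
    (hN₁f.union ((s.erase m₀).finite_toSet.image _)) ?_ (f m₀) ?_
  · rintro n (hn | ⟨m, hm, rfl⟩) hle
    · have h1 := hN₁ n hn
      have h2 : ∑ i, a i * n i ≤ ∑ i, a i * m₀ i :=
        Finset.sum_le_sum fun i _ => Nat.mul_le_mul_left _ (hle i)
      rw [hs m₀ hm₀] at h2
      omega
    · have hm' := Finset.mem_erase.1 (Finset.mem_coe.1 hm)
      apply hm'.1
      ext i
      by_contra hne
      have h1 : m i < m₀ i := lt_of_le_of_ne (hle i) hne
      have h2 : ∑ i, a i * m i < ∑ i, a i * m₀ i :=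
        Finset.sum_lt_sum (fun l _ => Nat.mul_le_mul_left _ (hle l))
          ⟨i, Finset.mem_univ i, Nat.mul_lt_mul_of_pos_left h1 (ha i)⟩
      rw [hs m hm'.2, hs m₀ hm₀] at h2
      exact lt_irrefl _ h2
  · have h1 : mo x (m₀ : Fin c → ℕ) * f m₀ = ∑ m ∈ s, f m * ∏ i, x i ^ m i -
        ∑ m ∈ s.erase m₀, f m * ∏ i, x i ^ m i := by
      rw [← Finset.add_sum_erase s (fun m => f m * ∏ i, x i ^ m i) hm₀, add_sub_cancel_right,
        mul_comm]
      rfl
    rw [h1]
    apply Ideal.sub_mem
    · exact In_mono x Set.subset_union_left hmem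
    · refine Ideal.sum_mem _ fun m hm => Ideal.mul_mem_left _ _ ?_
      exact Ideal.subset_span ⟨_, Or.inr ⟨m, hm, rfl⟩, rfl⟩

end Pool.Agent.Y484.G
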